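import Mathlib
import Pool.Agent.Y388.CF.Transversal

set_option autoImplicit false

/-!
# Tree-like gluing of pieces with at most one apex vertex

Roles of the vertices: `none` is the apex, `some b` a side.  All pieces are mapped to `K_{1,t,t}`.
-/

namespace Run7.h222.CF

open Pool.Agent.TH855 Pool.Agent.Y388.CF Classical
open scoped ENNReal

variable {W : Type}

/-- the map to `K_{1,t,t}` -/
def role (col : W → Option Bool) (w : W) : Option (Bool × W) := (col w).map fun b => (b, w)

theorem role_none (col : W → Option Bool) {w : W} (h : col w = none) : role col w = none := by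
  simp [role, h]

theorem role_some (col : W → Option Bool) {w : W} {b : Bool} (h : col w = some b) :
    role col w = some (b, w) := by
  simp [role, h]

theorem role_adj (col : W → Option Bool) {a b : W} (h : col a ≠ col b) :
    (apexGraph W).Adj (role col a) (role col b) := by
  rcases ha : col a with _ | p
  · rcases hb : col b with _ | q
    · exact absurd (ha.trans hb.symm) h
    · rw [role_none col ha, role_some col hb]
      exact apexGraph_none W _
  · rcases hb : col b with _ | q
    · rw [role_some col ha, role_none col hb]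
      exact (apexGraph_none W _).symm
    · rw [role_some col ha, role_some col hb, apexGraph_some]
      intro h1
      have h1' : p = q := h1
      exact h (by rw [ha, hb, h1'])

theorem conn_star {U : Type} (H : SimpleGraph U) (S : Set U) (a : U) (ha : a ∈ S)
    (hS : ∀ z ∈ S, z = a ∨ H.Adj a z) : (H.induce S).Connected := by
  rw [SimpleGraph.connected_iff_exists_forall_reachable]
  refine ⟨⟨a, ha⟩, ?_⟩
  rintro ⟨z, hz⟩
  rcases hS z hz with h | h
  · subst h; rfl
  · have : (H.induce S).Adj ⟨a, ha⟩ ⟨z, hz⟩ := h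
    exact this.reachable

/-- balanced sets: at most one vertex, or an apex, or both sides -/
def Bal (col : W → Option Bool) (R : Set W) : Prop :=
  R.Subsingleton ∨ (∃ x ∈ R, col x = none) ∨
    ∃ x ∈ R, ∃ y ∈ R, col x = some true ∧ col y = some false

theorem conn_bal (col : W → Option Bool) (R : Set W) (hne : R.Nonempty)
    (hone : ∀ a ∈ R, ∀ b ∈ R, col a = none → col b = none → a = b) (h : Bal col R) :
    ((apexGraph W).induce (role col '' R)).Connected := by
  rcases h with h | ⟨x, hx, hxc⟩ | ⟨x, hx, y, hy, hxc, hyc⟩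
  · obtain ⟨x, hx⟩ := hne
    refine conn_star _ _ (role col x) ⟨x, hx, rfl⟩ ?_
    rintro _ ⟨z, hz, rfl⟩
    left
    rw [h hz hx]
  · refine conn_star _ _ (role col x) ⟨x, hx, rfl⟩ ?_
    rintro _ ⟨z, hz, rfl⟩
    rcases hz' : col z with _ | q
    · left
      rw [hone z hz x hx hz' hxc]
    · right
      exact role_adj col (by rw [hxc, hz']; simp)
  · refine conn_of_pair _ _ (role col x) (role col y) ⟨x, hx, rfl⟩ ⟨y, hy, rfl⟩
      (role_adj col (by rw [hxc, hyc]; simp)) ?_
    rintro _ ⟨z, hz, rfl⟩
    rcases hz' : col z with _ | q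
    · right; right; left
      exact role_adj col (by rw [hxc, hz']; simp)
    · cases q
      · right; right; left
        exact role_adj col (by rw [hxc, hz']; simp)
      · right; right; right
        exact role_adj col (by rw [hyc, hz']; simp)

/-- **Balanced gluing** -/
theorem bal_bound [Fintype W] (F : SimpleGraph W) (col : W → Option Bool) (k : ℕ) (hk : 1 ≤ k)
    (hcol : ∀ a b, F.Adj a b → col a ≠ col b) (m : ℕ) (B : ℕ → Set W)
    (hcov : ∀ w, ∃ i < m, w ∈ B i) (hedge : ∀ a b, F.Adj a b → ∃ i < m, a ∈ B i ∧ b ∈ B i)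
    (hone : ∀ i < m, ∀ a ∈ B i, ∀ b ∈ B i, col a = none → col b = none → a = b)
    (hglue : ∀ i < m, 0 < i → ∃ j < i, (∀ l < i, B i ∩ B l ⊆ B j) ∧
      (B i ∩ B j).ncard ≤ k ∧ Bal col (B i ∩ B j)) : c F ≤ k := by
  rcases isEmpty_or_nonempty W with hW | hW
  · refine (c_empty F).trans ?_
    exact_mod_cast hk
  have htg : TreeGlued F (apexGraph W) k := by
    refine ⟨role col, m, B, fun a b hab => role_adj col (hcol a b hab), hcov, hedge, ?_, ?_⟩
    · intro i hi a ha b hb hab
      rcases ha' : col a with _ | p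
      · rcases hb' : col b with _ | q
        · exact hone i hi a ha b hb ha' hb'
        · rw [role_none col ha', role_some col hb'] at hab
          exact absurd hab (by simp)
      · rcases hb' : col b with _ | q
        · rw [role_some col ha', role_none col hb'] at hab
          exact absurd hab (by simp)
        · rw [role_some col ha', role_some col hb'] at hab
          exact (Prod.ext_iff.1 (Option.some.inj hab)).2
    · intro i hi
      rcases Nat.eq_zero_or_pos i with rfl | hi0
      · left; intro l hl; omega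
      · obtain ⟨j, hj, hsub, hcard, hbal⟩ := hglue i hi hi0
        rcases (B i ∩ B j).eq_empty_or_nonempty with he | hne
        · left
          intro l hl
          rw [Set.disjoint_iff]
          rintro z ⟨h1, h2⟩
          have h3 := hsub l hl ⟨h1, h2⟩
          rw [← he]
          exact ⟨h1, h3⟩
        · right
          refine ⟨j, hj, hsub, Or.inr ⟨hcard, ?_⟩⟩
          exact conn_bal col _ hne (fun a ha b hb => hone i hi a ha.1 b hb.1) hbal
  have h1 := treeGlued_bound F (apexGraph W) k (apexGraph_connected W) (card_apexGraph W) hk htg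
  refine h1.trans ?_
  calc (k : ℝ≥0∞) * c (apexGraph W) ≤ k * 1 := mul_le_mul_right (c_apexGraph W) _
    _ = k := mul_one _

/-- **Gluing along arbitrary sets of at most `k` vertices** -/
theorem gen_bound [Fintype W] (F : SimpleGraph W) (col : W → Option Bool) (k : ℕ)
    (hcol : ∀ a b, F.Adj a b → col a ≠ col b) (m : ℕ) (B : ℕ → Set W)
    (hcov : ∀ w, ∃ i < m, w ∈ B i) (hedge : ∀ a b, F.Adj a b → ∃ i < m, a ∈ B i ∧ b ∈ B i)
    (hone : ∀ i < m, ∀ a ∈ B i, ∀ b ∈ B i, col a = none → col b = none → a = b)
    (hglue : ∀ i < m, 0 < i → ∃ j < i, (∀ l < i, B i ∩ B l ⊆ B j) ∧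
      (B i ∩ B j).ncard ≤ k) : c F ≤ ((k + 1 : ℕ) : ℝ≥0∞) := by
  -- the parents
  obtain ⟨par, hpar⟩ : ∃ par : ℕ → ℕ, ∀ i, i < m → 0 < i → par i < i ∧
      (∀ l < i, B i ∩ B l ⊆ B (par i)) ∧ (B i ∩ B (par i)).ncard ≤ k := by
    refine ⟨fun i => if h : i < m ∧ 0 < i then (hglue i h.1 h.2).choose else 0, ?_⟩
    intro i hi hi0
    simp only [dif_pos (show i < m ∧ 0 < i from ⟨hi, hi0⟩)]
    exact (hglue i hi hi0).choose_spec
  set side : ℕ → Bool := fun i => if ∃ x ∈ B i ∩ B (par i), col x = some true then false else true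
    with hside
  set col' : W ⊕ Fin m → Option Bool := Sum.elim col (fun i => some (side i)) with hcol'
  set B' : ℕ → Set (W ⊕ Fin m) := fun i => {z | (∃ w ∈ B i, z = Sum.inl w) ∨
    ∃ t : Fin m, z = Sum.inr t ∧ ((t : ℕ) = i ∨ (0 < (t : ℕ) ∧ par t = i))} with hB'
  have hl : ∀ i w, (Sum.inl w : W ⊕ Fin m) ∈ B' i ↔ w ∈ B i := by
    intro i w
    constructor
    · rintro (⟨w', h, h'⟩ | ⟨t, h, -⟩)
      · rw [Sum.inl.inj h']; exact h
      · exact absurd h (by simp)
    · intro h; exact Or.inl ⟨w, h, rfl⟩
  have hr : ∀ i t, (Sum.inr t : W ⊕ Fin m) ∈ B' i ↔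
      ((t : ℕ) = i ∨ (0 < (t : ℕ) ∧ par t = i)) := by
    intro i t
    constructor
    · rintro (⟨w', h, h'⟩ | ⟨t', h, h'⟩)
      · exact absurd h' (by simp)
      · rw [Sum.inr.inj h]; exact h'
    · intro h; exact Or.inr ⟨t, rfl, h⟩
  -- dummies in two pieces
  have hdum : ∀ i l, i < m → l < i → ∀ t : Fin m, (Sum.inr t : W ⊕ Fin m) ∈ B' i →
      (Sum.inr t : W ⊕ Fin m) ∈ B' l → (t : ℕ) = i ∧ par i = l := by
    intro i l hi hli t h1 h2
    rw [hr] at h1 h2
    rcases h1 with h1 | ⟨h1, h1'⟩
    · rcases h2 with h2 | ⟨h2, h2'⟩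
      · omega
      · exact ⟨h1, by rw [← h1]; exact h2'⟩
    · exfalso
      rcases h2 with h2 | ⟨h2, h2'⟩
      · have := (hpar t t.2 h1).1
        omega
      · omega
  have hmain : c (F ⊕g (⊥ : SimpleGraph (Fin m))) ≤ ((k + 1 : ℕ) : ℝ≥0∞) := by
    refine bal_bound _ col' (k + 1) (by omega) ?_ m B' ?_ ?_ ?_ ?_
    · rintro (a | a) (b | b) hab
      · exact hcol a b (by simpa using hab)
      · exact absurd hab (by simp)
      · exact absurd hab (by simp)
      · exact absurd hab (by simp)
    · rintro (w | t)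
      · obtain ⟨i, hi, hw⟩ := hcov w
        exact ⟨i, hi, (hl i w).2 hw⟩
      · exact ⟨t, t.2, (hr t t).2 (Or.inl rfl)⟩
    · rintro (a | a) (b | b) hab
      · obtain ⟨i, hi, h1, h2⟩ := hedge a b (by simpa using hab)
        exact ⟨i, hi, (hl i a).2 h1, (hl i b).2 h2⟩
      · exact absurd hab (by simp)
      · exact absurd hab (by simp)
      · exact absurd hab (by simp)
    · rintro i hi (a | a) ha (b | b) hb ha' hb'
      · exact congrArg Sum.inl (hone i hi a ((hl i a).1 ha) b ((hl i b).1 hb) ha' hb')
      · exact absurd hb' (by simp [hcol'])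
      · exact absurd ha' (by simp [hcol'])
      · exact absurd ha' (by simp [hcol'])
    · intro i hi hi0
      obtain ⟨hj, hsub, hcard⟩ := hpar i hi hi0
      have hii : (Sum.inr ⟨i, hi⟩ : W ⊕ Fin m) ∈ B' i ∩ B' (par i) :=
        ⟨(hr i ⟨i, hi⟩).2 (Or.inl rfl), (hr _ ⟨i, hi⟩).2 (Or.inr ⟨hi0, rfl⟩)⟩
      refine ⟨par i, hj, ?_, ?_, ?_⟩
      · rintro l hli (w | t) ⟨h1, h2⟩
        · rw [hl] at h1 h2 ⊢
          exact hsub l hli ⟨h1, h2⟩
        · obtain ⟨h3, h4⟩ := hdum i l hi hli t h1 h2
          rw [h4]
          exact h2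
      · have h1 : B' i ∩ B' (par i) ⊆ (Sum.inl '' (B i ∩ B (par i))) ∪
            {(Sum.inr ⟨i, hi⟩ : W ⊕ Fin m)} := by
          rintro (w | t) ⟨h1, h2⟩
          · left
            exact ⟨w, ⟨(hl i w).1 h1, (hl _ w).1 h2⟩, rfl⟩
          · right
            obtain ⟨h3, -⟩ := hdum i (par i) hi hj t h1 h2
            rw [Set.mem_singleton_iff]
            exact congrArg Sum.inr (Fin.ext h3)
        have h2 := Set.ncard_le_ncard h1 (Set.toFinite _)
        have h3 := Set.ncard_union_le (Sum.inl '' (B i ∩ B (par i)) : Set (W ⊕ Fin m))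
          {(Sum.inr ⟨i, hi⟩ : W ⊕ Fin m)}
        have h4 : ((Sum.inl '' (B i ∩ B (par i)) : Set (W ⊕ Fin m))).ncard ≤ k :=
          (Set.ncard_image_le).trans hcard
        rw [Set.ncard_singleton] at h3
        omega
      · by_cases hx : ∃ x ∈ B i ∩ B (par i), col x = some true
        · obtain ⟨x, hxR, hxc⟩ := hx
          right; right
          refine ⟨Sum.inl x, ⟨(hl i x).2 hxR.1, (hl _ x).2 hxR.2⟩, Sum.inr ⟨i, hi⟩, hii,
            by simpa [hcol'] using hxc, ?_⟩
          have h1 : side i = false := by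
            simp only [hside]
            rw [if_pos ⟨x, hxR, hxc⟩]
          simp [hcol', h1]
        · have h1 : side i = true := by
            simp only [hside]
            rw [if_neg hx]
          by_cases hy : ∃ y ∈ B i ∩ B (par i), col y = some false
          · obtain ⟨y, hyR, hyc⟩ := hy
            right; right
            exact ⟨Sum.inr ⟨i, hi⟩, hii, Sum.inl y, ⟨(hl i y).2 hyR.1, (hl _ y).2 hyR.2⟩,
              by simp [hcol', h1], by simpa [hcol'] using hyc⟩
          · by_cases hz : ∃ z ∈ B i ∩ B (par i), col z = none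
            · obtain ⟨z, hzR, hzc⟩ := hz
              right; left
              exact ⟨Sum.inl z, ⟨(hl i z).2 hzR.1, (hl _ z).2 hzR.2⟩, by simpa [hcol'] using hzc⟩
            · left
              have hempty : ∀ w, w ∉ B i ∩ B (par i) := by
                intro w hw
                rcases h : col w with _ | b
                · exact hz ⟨w, hw, h⟩
                · cases b
                  · exact hy ⟨w, hw, h⟩
                  · exact hx ⟨w, hw, h⟩
              have key : ∀ z ∈ B' i ∩ B' (par i), z = Sum.inr ⟨i, hi⟩ := by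
                rintro (w | t) ⟨h2, h3⟩
                · exact absurd ⟨(hl i w).1 h2, (hl _ w).1 h3⟩ (hempty w)
                · obtain ⟨h4, -⟩ := hdum i (par i) hi hj t h2 h3
                  exact congrArg Sum.inr (Fin.ext h4)
              intro z hz z' hz'
              rw [key z hz, key z' hz']
  refine le_trans (c_mono ?_) hmain
  exact ⟨⟨(SimpleGraph.Embedding.sumInl : F ↪g F ⊕g (⊥ : SimpleGraph (Fin m))).toHom,
    Sum.inl_injective⟩⟩

/-- two colours as a Boolean function -/
theorem bool_col (F : SimpleGraph W) (S : Set W) (h : (F.induce S).Colorable 2) :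
    ∃ g : W → Bool, ∀ a ∈ S, ∀ b ∈ S, F.Adj a b → g a ≠ g b := by
  obtain ⟨C⟩ := h
  refine ⟨fun w => if h : w ∈ S then decide (C ⟨w, h⟩ = 0) else false, ?_⟩
  intro a ha b hb hab h
  simp only [dif_pos ha, dif_pos hb, decide_eq_decide] at h
  have h2 : (F.induce S).Adj ⟨a, ha⟩ ⟨b, hb⟩ := hab
  have h3 := C.valid h2
  have key : ∀ a b : Fin 2, a ≠ b → ¬ (a = 0 ↔ b = 0) := by decide
  exact key _ _ h3 h

/-- the flexible pieces can be coloured with any role of one vertex -/
theorem flex (F : SimpleGraph W) (S : Set W)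
    (hS : ∀ v ∈ S, (F.induce (S \ {v})).Colorable 2) (v : W) (hv : v ∈ S) (r : Option Bool) :
    ∃ g : W → Option Bool, (∀ a ∈ S, ∀ b ∈ S, F.Adj a b → g a ≠ g b) ∧
      (∀ a ∈ S, ∀ b ∈ S, g a = none → g b = none → a = b) ∧ g v = r := by
  -- one apex
  have apex : ∀ x ∈ S, ∀ t : Bool, ∃ g : W → Option Bool,
      (∀ a ∈ S, ∀ b ∈ S, F.Adj a b → g a ≠ g b) ∧
      (∀ a ∈ S, g a = none → a = x) ∧ g x = none ∧ (v ≠ x → g v = some t) := by
    intro x hx t
    obtain ⟨g, hg⟩ := bool_col F _ (hS x hx)
    refine ⟨fun w => if w = x then none else some (xor (g w) (xor (g v) t)), ?_, ?_, ?_, ?_⟩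
    · intro a ha b hb hab
      by_cases hax : a = x
      · by_cases hbx : b = x
        · rw [hax, hbx] at hab
          exact absurd hab (F.loopless.irrefl x)
        · simp [hax, hbx]
      · by_cases hbx : b = x
        · simp [hax, hbx]
        · have h1 := hg a ⟨ha, hax⟩ b ⟨hb, hbx⟩ hab
          simp only [hax, hbx, if_false]
          intro h2
          have h3 := Option.some.inj h2
          apply h1
          revert h3
          cases g a <;> cases g b <;> cases g v <;> cases t <;> simp
    · intro a _ h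
      by_contra hax
      simp [hax] at h
    · simp
    · intro hvx
      simp only [hvx, if_false]
      cases g v <;> cases t <;> simp
  rcases r with _ | t
  · obtain ⟨g, h1, h2, h3, -⟩ := apex v hv true
    exact ⟨g, h1, fun a ha b hb hga hgb => (h2 a ha hga).trans (h2 b hb hgb).symm, h3⟩
  · by_cases hex : ∃ x ∈ S, x ≠ v
    · obtain ⟨x, hx, hxv⟩ := hex
      obtain ⟨g, h1, h2, -, h4⟩ := apex x hx t
      exact ⟨g, h1, fun a ha b hb hga hgb => (h2 a ha hga).trans (h2 b hb hgb).symm,
        h4 (Ne.symm hxv)⟩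
    · push Not at hex
      refine ⟨fun _ => some t, ?_, ?_, rfl⟩
      · intro a ha b hb hab
        rw [hex a ha, hex b hb] at hab
        exact absurd hab (F.loopless.irrefl v)
      · intro a _ b _ h
        exact absurd h (by simp)

/-- **Flexible pieces glued at single vertices** -/
theorem flex_bound [Fintype W] (F : SimpleGraph W) (m : ℕ) (B : ℕ → Set W)
    (hcov : ∀ w, ∃ i < m, w ∈ B i) (hedge : ∀ a b, F.Adj a b → ∃ i < m, a ∈ B i ∧ b ∈ B i)
    (hflex : ∀ i < m, ∀ v ∈ B i, (F.induce (B i \ {v})).Colorable 2)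
    (hglue : ∀ i < m, 0 < i → ∃ j < i, (∀ l < i, B i ∩ B l ⊆ B j) ∧
      (B i ∩ B j).ncard ≤ 1) : c F ≤ 1 := by
  have hcol : ∀ n, n ≤ m → ∃ col : W → Option Bool,
      (∀ i < n, ∀ a ∈ B i, ∀ b ∈ B i, F.Adj a b → col a ≠ col b) ∧
      (∀ i < n, ∀ a ∈ B i, ∀ b ∈ B i, col a = none → col b = none → a = b) := by
    intro n
    induction n with
    | zero => intro _; exact ⟨fun _ => none, fun i hi => absurd hi (Nat.not_lt_zero i),
        fun i hi => absurd hi (Nat.not_lt_zero i)⟩
    | succ n ih =>
      intro hn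
      obtain ⟨col, h1, h2⟩ := ih (by omega)
      -- a colouring of the new piece
      obtain ⟨g, hg1, hg2, hg3⟩ : ∃ g : W → Option Bool,
          (∀ a ∈ B n, ∀ b ∈ B n, F.Adj a b → g a ≠ g b) ∧
          (∀ a ∈ B n, ∀ b ∈ B n, g a = none → g b = none → a = b) ∧
          ∀ i < n, ∀ a ∈ B n, a ∈ B i → g a = col a := by
        by_cases hov : ∃ v ∈ B n, ∃ i < n, v ∈ B i
        · obtain ⟨v, hv, i, hi, hvi⟩ := hov
          obtain ⟨g, hg1, hg2, hg3⟩ := flex F (B n) (hflex n (by omega)) v hv (col v)
          refine ⟨g, hg1, hg2, ?_⟩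
          intro l hl a ha hal
          obtain ⟨j, hj, hsub, hcard⟩ := hglue n (by omega) (by omega)
          have hsing : (B n ∩ B j).Subsingleton :=
            Set.ncard_le_one_iff_subsingleton.1 hcard
          have e : a = v := hsing ⟨ha, hsub l hl ⟨ha, hal⟩⟩ ⟨hv, hsub i hi ⟨hv, hvi⟩⟩
          rw [e, hg3]
        · push Not at hov
          rcases (B n).eq_empty_or_nonempty with he | ⟨v, hv⟩
          · refine ⟨fun _ => none, ?_, ?_, ?_⟩
            · intro a ha; rw [he] at ha; exact absurd ha (Set.notMem_empty a)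
            · intro a ha; rw [he] at ha; exact absurd ha (Set.notMem_empty a)
            · intro i _ a ha; rw [he] at ha; exact absurd ha (Set.notMem_empty a)
          · obtain ⟨g, hg1, hg2, -⟩ := flex F (B n) (hflex n (by omega)) v hv none
            exact ⟨g, hg1, hg2, fun i hi a ha hai => absurd hai (hov a ha i hi)⟩
      refine ⟨fun w => if w ∈ B n then g w else col w, ?_, ?_⟩
      · intro i hi a ha b hb hab
        rcases Nat.lt_succ_iff_lt_or_eq.1 hi with hi' | rfl
        · have ea : (if a ∈ B n then g a else col a) = col a := by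
            split_ifs with h
            · exact hg3 i hi' a h ha
            · rfl
          have eb : (if b ∈ B n then g b else col b) = col b := by
            split_ifs with h
            · exact hg3 i hi' b h hb
            · rfl
          simp only [ea, eb]
          exact h1 i hi' a ha b hb hab
        · simp only [if_pos ha, if_pos hb]
          exact hg1 a ha b hb hab
      · intro i hi a ha b hb ha' hb'
        rcases Nat.lt_succ_iff_lt_or_eq.1 hi with hi' | rfl
        · have ea : (if a ∈ B n then g a else col a) = col a := by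
            split_ifs with h
            · exact hg3 i hi' a h ha
            · rfl
          have eb : (if b ∈ B n then g b else col b) = col b := by
            split_ifs with h
            · exact hg3 i hi' b h hb
            · rfl
          simp only [ea, eb] at ha' hb'
          exact h2 i hi' a ha b hb ha' hb'
        · simp only [if_pos ha, if_pos hb] at ha' hb'
          exact hg2 a ha b hb ha' hb'
  obtain ⟨col, h1, h2⟩ := hcol m le_rfl
  have h3 : c F ≤ ((1 : ℕ) : ℝ≥0∞) := by
    refine bal_bound F col 1 le_rfl ?_ m B hcov hedge h2 ?_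
    · intro a b hab
      obtain ⟨i, hi, ha, hb⟩ := hedge a b hab
      exact h1 i hi a ha b hb hab
    · intro i hi hi0
      obtain ⟨j, hj, hsub, hcard⟩ := hglue i hi hi0
      exact ⟨j, hj, hsub, hcard, Or.inl (Set.ncard_le_one_iff_subsingleton.1 hcard)⟩
  simpa using h3

end Run7.h222.CF
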